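import Pool.Agent.N355.EH.Stm

set_option autoImplicit false
open scoped Pointwise

set_option linter.unusedSectionVars false

namespace Pool.Agent.N355.EH

open PowerSeries Pool.Agent.H160R3

/-! ### the simplex part -/

/-- `(i, k, a, b)` -/
abbrev TS (J : Type) (n : ℕ) : Type := Fin n × ((J → ℕ) × (ℕ × ℕ))

/-- the height `(n+1) i + ∑ k + a + b` -/
def hS {J : Type} [Fintype J] {n : ℕ} (p : TS J n) : ℕ :=
  (n + 1) * p.1.val + (hSum p.2.1 + (p.2.2.1 + p.2.2.2))

theorem FF_finite {α : Type} [Finite α] (h : α → ℕ) : FF h := fun _ => inferInstance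

theorem ser_fin (n : ℕ) :
    ser (fun i : Fin n => (n + 1) * i.val) = ∑ i ∈ Finset.range n, (X : PowerSeries ℤ) ^ ((n + 1) * i) := by
  rw [← Fin.sum_univ_eq_sum_range (fun i => (X : PowerSeries ℤ) ^ ((n + 1) * i))]
  ext m
  rw [coeff_ser, map_sum]
  simp only [PowerSeries.coeff_X_pow]
  rw [Finset.sum_boole, Nat.card_eq_fintype_card, Fintype.card_subtype]
  congr 2
  ext i
  simp only [Finset.mem_filter, Finset.mem_univ, true_and]
  exact eq_comm

theorem hS_ser {J : Type} [Fintype J] (n : ℕ) (hJ : GFS_stm) :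
    FF (hS (J := J) (n := n)) ∧
      ser (hS (J := J) (n := n)) * (1 - X) ^ (Fintype.card J + 2) =
        ∑ i ∈ Finset.range n, (X : PowerSeries ℤ) ^ ((n + 1) * i) := by
  obtain ⟨f1, s1⟩ := hJ J 1 one_pos
  simp only [one_mul, pow_one] at f1 s1
  have f2 : FF (fun p : ℕ × ℕ => p.1 + p.2) := FF_prod FF_id FF_id
  have f3 : FF (fun p : (J → ℕ) × (ℕ × ℕ) => hSum p.1 + (p.2.1 + p.2.2)) := FF_prod f1 f2
  have f4 : FF (fun i : Fin n => (n + 1) * i.val) := FF_finite _
  refine ⟨FF_prod f4 f3, ?_⟩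
  have e : ser (hS (J := J) (n := n)) = ser (fun i : Fin n => (n + 1) * i.val) *
      (ser (fun k : J → ℕ => hSum k) * (ser (fun n : ℕ => n) * ser (fun n : ℕ => n))) := by
    rw [← ser_prod FF_id FF_id, ← ser_prod f1 f2, ← ser_prod f4 f3]
    rfl
  rw [e, ser_fin]
  have h0 := ser_id
  calc _ = (∑ i ∈ Finset.range n, (X : PowerSeries ℤ) ^ ((n + 1) * i)) *
      (ser (fun k : J → ℕ => hSum k) * (1 - X) ^ Fintype.card J) *
      (ser (fun n : ℕ => n) * (1 - X)) * (ser (fun n : ℕ => n) * (1 - X)) := by ring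
    _ = _ := by rw [s1, h0]; ring

/-! ### the bijection -/

section

variable {J G : Type} [Fintype J] [DecidableEq J] [Fintype G] [DecidableEq G] [Group G]

/-- `g` fixes `x` -/
def Fixed (g : G) (x : Ix J G → ℤ) : Prop :=
  ∀ a : G, x (Sum.inl (Sum.inr (a * g))) = x (Sum.inl (Sum.inr a))

theorem lin_eq_iff (g : G) (x : Ix J G → ℤ) : lin J G g x = x ↔ Fixed g x := by
  constructor
  · intro h a
    have := congrFun h (Sum.inl (Sum.inr a))
    change x ((perm J G g).symm (Sum.inl (Sum.inr a))) = _ at this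
    rw [← this]
    simp [perm]
  · intro h
    funext i
    change x ((perm J G g).symm i) = x i
    rcases i with (i | i) | i
    · simp [perm]
    · rw [← h i]
      simp [perm]
    · simp [perm]

/-- the `g`-fixed lattice points of the dilates -/
def T (J : Type) [Fintype J] (n : ℕ) (g : G) : Type :=
  {p : (Ix J G → ℤ) × ℕ // Ineq n p.1 p.2 ∧ Fixed g p.1}

/-- their heights -/
def hT {n : ℕ} {g : G} (p : T J n g) : ℕ := p.1.2

/-- the point of given parameters -/
def pt (n : ℕ) (p : TS J n) (q : (G → ℕ) × ℕ) : Ix J G → ℤ :=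
  Sum.elim (Sum.elim (fun j => (p.2.1 j : ℤ) - p.2.2.1) (fun a => (q.1 a : ℤ)))
    ![(n : ℤ) * p.2.2.1 + p.1.val, (q.2 : ℤ)]

theorem pt_mem {n : ℕ} (hn : 0 < n) (hJ : Fintype.card J + 2 = n * (n + 1)) (g : G)
    (p : TS J n) (q : TF G g) :
    Ineq n (pt n p q.1) (hS p + hF q) ∧ Fixed g (pt n p q.1) := by
  obtain ⟨i, k, a, b⟩ := p
  obtain ⟨⟨y, w⟩, hy, hw⟩ := q
  refine ⟨⟨?_, ?_, ?_, ?_, ?_, ?_⟩, ?_⟩
  · show (0 : ℤ) ≤ (n : ℤ) * a + i.val
    positivity
  · intro j
    show (0 : ℤ) ≤ (n : ℤ) * ((k j : ℤ) - a) + ((n : ℤ) * a + i.val)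
    have : (n : ℤ) * ((k j : ℤ) - a) + ((n : ℤ) * a + i.val) = (n : ℤ) * k j + i.val := by ring
    rw [this]; positivity
  · intro c
    show (0 : ℤ) ≤ (y c : ℤ)
    positivity
  · show (0 : ℤ) ≤ (w : ℤ)
    positivity
  · show (w : ℤ) ≤ ∑ c : G, (y c : ℤ)
    have : w ≤ ∑ c : G, y c := hw
    exact_mod_cast this
  · show ((Fintype.card J : ℤ) + 1) * ((n : ℤ) * a + i.val) ≤
      (n : ℤ) * (((((n + 1) * i.val + (hSum k + (a + b))) + hSum y : ℕ) : ℤ) -
        ∑ j : J, ((k j : ℤ) - a) - ∑ c : G, (y c : ℤ))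
    rw [Finset.sum_sub_distrib, Finset.sum_const, Finset.card_univ]
    have e1 : ((hSum k : ℕ) : ℤ) = ∑ j : J, (k j : ℤ) := by simp [hSum]
    have e2 : ((hSum y : ℕ) : ℤ) = ∑ c : G, (y c : ℤ) := by simp [hSum]
    push_cast
    rw [e1, e2]
    have hJ' : (Fintype.card J : ℤ) + 2 = n * (n + 1) := by exact_mod_cast hJ
    have h1 : (n : ℤ) * ((((n : ℤ) + 1) * i.val + (∑ j : J, (k j : ℤ) + ((a : ℤ) + b)) + ∑ c : G, (y c : ℤ)) -
        (∑ j : J, (k j : ℤ) - Fintype.card J • (a : ℤ)) - ∑ c : G, (y c : ℤ)) =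
        ((Fintype.card J : ℤ) + 1) * ((n : ℤ) * a + i.val) + (i.val + n * b) := by
      rw [nsmul_eq_mul]
      linear_combination (-(i.val : ℤ)) * hJ'
    rw [h1]
    have : (0 : ℤ) ≤ i.val + n * b := by positivity
    linarith
  · intro c
    have e : y (c * g) = y c := hy c
    show ((y (c * g) : ℕ) : ℤ) = y c
    rw [e]

/-- the bijection -/
def dec {n : ℕ} (hn : 0 < n) (hJ : Fintype.card J + 2 = n * (n + 1)) (g : G)
    (p : TS J n × TF G g) : T J n g :=
  ⟨(pt n p.1 p.2.1, hS p.1 + hF p.2), pt_mem hn hJ g p.1 p.2⟩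

theorem dec_bij {n : ℕ} (hn : 0 < n) (hJ : Fintype.card J + 2 = n * (n + 1)) (g : G) :
    Function.Bijective (dec (J := J) hn hJ g) := by
  have hn' : (0 : ℤ) < n := by exact_mod_cast hn
  constructor
  · rintro ⟨⟨i, k, a, b⟩, ⟨⟨y, w⟩, hy, hw⟩⟩ ⟨⟨i', k', a', b'⟩, ⟨⟨y', w'⟩, hy', hw'⟩⟩ h
    have h := congrArg Subtype.val h
    have h1 := congrArg Prod.fst h
    have h2 := congrArg Prod.snd h
    have u0 : (n : ℤ) * a + i.val = (n : ℤ) * a' + i'.val := congrFun h1 (Sum.inr 0)
    have w0 : (w : ℤ) = w' := congrFun h1 (Sum.inr 1)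
    have y0 : y = y' := by
      funext c
      have : (y c : ℤ) = y' c := congrFun h1 (Sum.inl (Sum.inr c))
      exact_mod_cast this
    have hi := i.isLt
    have hi' := i'.isLt
    have u1 : n * a + i.val = n * a' + i'.val := by exact_mod_cast u0
    have a0 : a = a' := by
      have e1 : (n * a + i.val) / n = a := by
        rw [Nat.mul_add_div hn, Nat.div_eq_of_lt hi, add_zero]
      have e2 : (n * a' + i'.val) / n = a' := by
        rw [Nat.mul_add_div hn, Nat.div_eq_of_lt hi', add_zero]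
      rw [← e1, ← e2, u1]
    subst a0
    have i0 : i = i' := by
      apply Fin.ext
      omega
    subst i0
    have k0 : k = k' := by
      funext j
      have : (k j : ℤ) - a = k' j - a := congrFun h1 (Sum.inl (Sum.inl j))
      omega
    subst k0
    subst y0
    have w1 : w = w' := by exact_mod_cast w0
    subst w1
    have b0 : b = b' := by
      change ((n + 1) * i.val + (hSum k + (a + b))) + hSum y =
        ((n + 1) * i.val + (hSum k + (a + b'))) + hSum y at h2
      omega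
    subst b0
    rfl
  · rintro ⟨⟨x, m⟩, ⟨h1, h2, h3, h4, h5, h6⟩, h7⟩
    simp only at h1 h2 h3 h4 h5 h6 h7
    set u : ℤ := x (Sum.inr 0) with hu
    set w : ℤ := x (Sum.inr 1) with hw
    set a : ℤ := u / n with ha
    set i : ℤ := u % n with hi
    have hu' : n * a + i = u := Int.mul_ediv_add_emod u n
    have hi0 : 0 ≤ i := Int.emod_nonneg _ hn'.ne'
    have hi1 : i < n := Int.emod_lt_of_pos _ hn'
    have ha0 : 0 ≤ a := Int.ediv_nonneg h1 hn'.le
    have hk : ∀ j : J, 0 ≤ x (Sum.inl (Sum.inl j)) + a := by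
      intro j
      have := h2 j
      by_contra hlt
      push Not at hlt
      have : x (Sum.inl (Sum.inl j)) + a ≤ -1 := by omega
      nlinarith
    have hJ' : (Fintype.card J : ℤ) + 2 = n * (n + 1) := by exact_mod_cast hJ
    have hb : 0 ≤ (m : ℤ) - (n + 1) * i - (∑ j : J, (x (Sum.inl (Sum.inl j)) + a)) - a -
        ∑ c : G, x (Sum.inl (Sum.inr c)) := by
      rw [Finset.sum_add_distrib, Finset.sum_const, Finset.card_univ, nsmul_eq_mul]
      by_contra hlt
      push Not at hlt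
      set z : ℤ := (m : ℤ) - (n + 1) * i - (∑ j : J, x (Sum.inl (Sum.inl j)) + Fintype.card J * a) - a -
        ∑ c : G, x (Sum.inl (Sum.inr c)) with hz
      have hz1 : z ≤ -1 := by omega
      have e : (n : ℤ) * ((m : ℤ) - ∑ j : J, x (Sum.inl (Sum.inl j)) - ∑ a : G, x (Sum.inl (Sum.inr a))) -
          ((Fintype.card J : ℤ) + 1) * u = n * z + i := by
        rw [hz, ← hu']
        linear_combination (i : ℤ) * (-hJ')
      have : 0 ≤ n * z + i := by rw [← e]; linarith
      nlinarith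
    refine ⟨⟨⟨⟨i.toNat, by omega⟩, fun j => (x (Sum.inl (Sum.inl j)) + a).toNat, a.toNat,
      ((m : ℤ) - (n + 1) * i - (∑ j : J, (x (Sum.inl (Sum.inl j)) + a)) - a -
        ∑ c : G, x (Sum.inl (Sum.inr c))).toNat⟩,
      ⟨(fun c => (x (Sum.inl (Sum.inr c))).toNat, w.toNat), ?_, ?_⟩⟩, ?_⟩
    · intro c
      show (x (Sum.inl (Sum.inr (c * g)))).toNat = (x (Sum.inl (Sum.inr c))).toNat
      rw [h7 c]
    · show w.toNat ≤ hSum fun c => (x (Sum.inl (Sum.inr c))).toNat
      have e2 : ((hSum (fun c : G => (x (Sum.inl (Sum.inr c))).toNat) : ℕ) : ℤ) =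
          ∑ c : G, x (Sum.inl (Sum.inr c)) := by
        simp only [hSum]
        push_cast
        apply Finset.sum_congr rfl
        intro c _
        exact Int.toNat_of_nonneg (h3 c)
      have : ((w.toNat : ℕ) : ℤ) ≤ ∑ c : G, x (Sum.inl (Sum.inr c)) := by
        rw [Int.toNat_of_nonneg h4]
        exact h5
      rw [← e2] at this
      exact_mod_cast this
    · apply Subtype.ext
      apply Prod.ext
      · funext c
        rcases c with (c | c) | c
        · show (((x (Sum.inl (Sum.inl c)) + a).toNat : ℕ) : ℤ) - (a.toNat : ℤ) = x (Sum.inl (Sum.inl c))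
          rw [Int.toNat_of_nonneg (hk c), Int.toNat_of_nonneg ha0]
          ring
        · show (((x (Sum.inl (Sum.inr c))).toNat : ℕ) : ℤ) = x (Sum.inl (Sum.inr c))
          exact Int.toNat_of_nonneg (h3 c)
        · fin_cases c
          · show (n : ℤ) * (a.toNat : ℤ) + ((i.toNat : ℕ) : ℤ) = x (Sum.inr 0)
            rw [Int.toNat_of_nonneg ha0, Int.toNat_of_nonneg hi0, hu']
          · show ((w.toNat : ℕ) : ℤ) = x (Sum.inr 1)
            rw [Int.toNat_of_nonneg h4]
      · show ((n + 1) * i.toNat + (hSum (fun j => (x (Sum.inl (Sum.inl j)) + a).toNat) + (a.toNat +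
          ((m : ℤ) - (n + 1) * i - (∑ j : J, (x (Sum.inl (Sum.inl j)) + a)) - a -
        ∑ c : G, x (Sum.inl (Sum.inr c))).toNat))) + hSum (fun c => (x (Sum.inl (Sum.inr c))).toNat) = m
        have e2 : ((hSum (fun c : G => (x (Sum.inl (Sum.inr c))).toNat) : ℕ) : ℤ) =
            ∑ c : G, x (Sum.inl (Sum.inr c)) := by
          simp only [hSum]
          push_cast
          apply Finset.sum_congr rfl
          intro c _
          exact Int.toNat_of_nonneg (h3 c)
        have e1 : ((hSum (fun j : J => (x (Sum.inl (Sum.inl j)) + a).toNat) : ℕ) : ℤ) =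
            ∑ j : J, (x (Sum.inl (Sum.inl j)) + a) := by
          simp only [hSum]
          push_cast
          apply Finset.sum_congr rfl
          intro c _
          exact Int.toNat_of_nonneg (hk c)
        zify
        rw [e1, e2, Int.toNat_of_nonneg hb, Int.toNat_of_nonneg ha0, Int.toNat_of_nonneg hi0]
        ring

theorem ser_T {n : ℕ} (hn : 0 < n) (hJ : Fintype.card J + 2 = n * (n + 1)) (g : G)
    (hS' : GFS_stm) (hF' : GFF_stm) :
    ser (hT (J := J) (n := n) (g := g)) = ser (hS (J := J) (n := n)) * ser (hF (g := g)) := by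
  rw [← ser_prod (hS_ser (J := J) n hS').1 (hF' G g).1]
  symm
  apply ser_congr _ _ (Equiv.ofBijective (dec hn hJ g) (dec_bij hn hJ g))
  intro p
  rfl

end

end Pool.Agent.N355.EH
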