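import Pool.Agent.H160R3.Ser

set_option autoImplicit false
open scoped Pointwise

/-!
# Equivariant H*-series of lattice polytopes: definitions, and the polytopes `P(G)`

For a finite group `G` with `n` elements let `S` be the lattice simplex with `n (n + 1)` vertices
and box group of order `n` generated by `(1/n, …, 1/n)` (trivial action), let
`F = Δ_{n-1} × [0,1]` where `G` permutes the vertices of `Δ_{n-1}` regularly, and let `P(G)` be the
join of `S` and `F`.
-/

namespace Pool.Agent.N355.EH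

/-- The point of `ℝ^ι` with the given integer coordinates. -/
def toReal {ι : Type} (v : ι → ℤ) : ι → ℝ := fun i => (v i : ℝ)

/-- The matrix of the linear part `ρ` of an affine lattice automorphism of `ℤ^ι`. -/
noncomputable def linMat {ι : Type} [Fintype ι] [DecidableEq ι]
    (f : (ι → ℤ) ≃ᵃ[ℤ] (ι → ℤ)) : Matrix ι ι ℤ :=
  LinearMap.toMatrix' (f.linear : (ι → ℤ) →ₗ[ℤ] (ι → ℤ))

/-- The affine map `x ↦ A x + f(0)` of `ℝ^ι` that extends the affine lattice automorphism
`f(x) = A x + f(0)` of `ℤ^ι`. -/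
noncomputable def realMap {ι : Type} [Fintype ι] [DecidableEq ι]
    (f : (ι → ℤ) ≃ᵃ[ℤ] (ι → ℤ)) (x : ι → ℝ) : ι → ℝ :=
  ((linMat f).map (Int.cast : ℤ → ℝ)).mulVec x + toReal (f 0)

/-- A lattice polytope `P` in `ℝ^ι`, of dimension `|ι|`, with an action of the group `G` on the
affine lattice `ℤ^ι` by affine lattice automorphisms that map `P` to itself. -/
structure InvPolytope (G : Type) [Group G] (ι : Type) [Fintype ι] [DecidableEq ι] where
  /-- a finite set of lattice points whose convex hull is the polytope -/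
  V : Finset (ι → ℤ)
  /-- the polytope has full dimension -/
  full : affineSpan ℝ (toReal '' (V : Set (ι → ℤ))) = ⊤
  /-- the action by affine lattice automorphisms -/
  act : G →* ((ι → ℤ) ≃ᵃ[ℤ] (ι → ℤ))
  /-- every element of `G` maps the polytope to itself -/
  inv : ∀ g : G, realMap (act g) '' convexHull ℝ (toReal '' (V : Set (ι → ℤ))) =
    convexHull ℝ (toReal '' (V : Set (ι → ℤ)))

namespace InvPolytope

variable {G : Type} [Group G] {ι : Type} [Fintype ι] [DecidableEq ι]

/-- The polytope itself, the convex hull of `V` in `ℝ^ι`. -/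
def carrier (P : InvPolytope G ι) : Set (ι → ℝ) := convexHull ℝ (toReal '' (P.V : Set (ι → ℤ)))

/-- `χ_{mP}(g)`: the number of lattice points of `m P` that `g` fixes. If `g` acts on `P` by
`x ↦ ρ(g) x + b(g)`, then it acts on `m P` by `x ↦ ρ(g) x + m b(g)`. -/
noncomputable def chi (P : InvPolytope G ι) (m : ℕ) (g : G) : ℕ :=
  Set.ncard {x : ι → ℤ | toReal x ∈ (m : ℝ) • P.carrier ∧
    (P.act g).linear x + m • (P.act g 0) = x}

/-- The value at `g` of the equivariant `H*`-series,
`H*(t)(g) = (1 - t) det(I - t ρ(g)) ∑_m χ_{mP}(g) t^m`. -/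
noncomputable def Hstar (P : InvPolytope G ι) (g : G) : PowerSeries ℤ :=
  (1 - PowerSeries.X) *
    ((Matrix.det (1 - (Polynomial.X : Polynomial ℤ) • (linMat (P.act g)).map Polynomial.C) :
      Polynomial ℤ) : PowerSeries ℤ) *
    PowerSeries.mk fun m => (P.chi m g : ℤ)

/-- `H*(t)` is polynomial: only finitely many of the class functions `H*_i` are nonzero. -/
def IsPolynomial (P : InvPolytope G ι) : Prop :=
  ∃ D : ℕ, ∀ i : ℕ, D < i → ∀ g : G, PowerSeries.coeff i (P.Hstar g) = 0

/-- `H*(t)` is effective: every `H*_i` is the character of a finite-dimensional complex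
representation of `G`. -/
def IsEffective (P : InvPolytope G ι) : Prop :=
  ∀ i : ℕ, ∃ W : FDRep ℂ G, ∀ g : G, W.character g = ((PowerSeries.coeff i (P.Hstar g) : ℤ) : ℂ)

end InvPolytope

/-! ### The polytope -/

/-- index set of the coordinates: `s_j` for `j : J`, `y_a` for `a : G`, then `u` and `w` -/
abbrev Ix (J G : Type) : Type := (J ⊕ G) ⊕ Fin 2

/-- index set of the vertices -/
abbrev Kx (J G : Type) : Type := (Fin 2 ⊕ J) ⊕ (G × Fin 2)

section

variable {J G : Type} [Fintype J] [DecidableEq J] [Fintype G] [DecidableEq G]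

/-- the vertices: `0`, `(-1, …, -1; 0; n, 0)`, the unit vectors `s_j`, and `y_a`, `y_a + w` -/
def vert (n : ℕ) : Kx J G → (Ix J G → ℤ)
  | Sum.inl (Sum.inl 0) => 0
  | Sum.inl (Sum.inl 1) => Sum.elim (Sum.elim (fun _ => -1) (fun _ => 0)) ![(n : ℤ), 0]
  | Sum.inl (Sum.inr j) => Sum.elim (Sum.elim (Pi.single j 1) (fun _ => 0)) ![0, 0]
  | Sum.inr (a, b) => Sum.elim (Sum.elim (fun _ => 0) (Pi.single a 1)) ![0, (b.val : ℤ)]

/-- the inequalities of `m P` -/
def Ineq (n : ℕ) (x : Ix J G → ℤ) (m : ℕ) : Prop :=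
  0 ≤ x (Sum.inr 0) ∧
  (∀ j : J, 0 ≤ (n : ℤ) * x (Sum.inl (Sum.inl j)) + x (Sum.inr 0)) ∧
  (∀ a : G, 0 ≤ x (Sum.inl (Sum.inr a))) ∧
  0 ≤ x (Sum.inr 1) ∧
  x (Sum.inr 1) ≤ ∑ a : G, x (Sum.inl (Sum.inr a)) ∧
  ((Fintype.card J : ℤ) + 1) * x (Sum.inr 0) ≤
    (n : ℤ) * ((m : ℤ) - ∑ j : J, x (Sum.inl (Sum.inl j)) - ∑ a : G, x (Sum.inl (Sum.inr a)))

end

/-- right multiplication by the inverse, `x ↦ x g⁻¹`, on the coordinates `y` -/
def perm (J G : Type) [Group G] : G →* Equiv.Perm (Ix J G) where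
  toFun g := Equiv.sumCongr (Equiv.sumCongr (Equiv.refl J) (Equiv.mulRight g⁻¹)) (Equiv.refl (Fin 2))
  map_one' := by
    ext x
    rcases x with (x | x) | x <;> simp
  map_mul' g h := by
    ext x
    rcases x with (x | x) | x <;> simp [mul_assoc]

/-- the linear automorphism `x ↦ x ∘ (perm g)⁻¹` of `ℤ^ι` -/
def lin (J G : Type) [Group G] (g : G) : (Ix J G → ℤ) ≃ₗ[ℤ] (Ix J G → ℤ) :=
  LinearEquiv.funCongrLeft ℤ ℤ (perm J G g).symm

/-- the action by (linear) lattice automorphisms -/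
def actP (J G : Type) [Group G] : G →* ((Ix J G → ℤ) ≃ᵃ[ℤ] (Ix J G → ℤ)) where
  toFun g := (lin J G g).toAffineEquiv
  map_one' := by
    ext x i
    show x ((perm J G 1).symm i) = x i
    rw [map_one]; rfl
  map_mul' g h := by
    ext x i
    show x ((perm J G (g * h)).symm i) = x ((perm J G h).symm ((perm J G g).symm i))
    rw [map_mul]; rfl

end Pool.Agent.N355.EH
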