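import Pool.Agent.N355.EH.Stm

set_option autoImplicit false

/-!
Project EH: the determinant `det (I - t ρ(g))`.
-/

namespace Pool.Agent.N355.EH

namespace DetAux

open Polynomial

/-- `1 - X S` for the cyclic shift `S` on `n + 1` points -/
noncomputable def cyc (n : ℕ) : Matrix (Fin (n + 1)) (Fin (n + 1)) (Polynomial ℤ) :=
  Matrix.of fun i j =>
    (if i = j then 1 else 0) - X * (if (i.val + 1) % (n + 1) = j.val then 1 else 0)

theorem det_cyc (n : ℕ) : (cyc n).det = 1 - X ^ (n + 1) := by
  rcases n with _ | m
  · rw [Matrix.det_fin_one]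
    simp [cyc]
  · rw [Matrix.det_succ_column_zero, Fin.sum_univ_castSucc, Fin.sum_univ_succ]
    have h1 : ∀ i : Fin m, cyc (m + 1) (Fin.castSucc (Fin.succ i)) 0 = 0 := by
      intro i
      have hi := i.isLt
      have e1 : ¬ (Fin.castSucc (Fin.succ i) = (0 : Fin (m + 2))) := by
        intro h
        have := congrArg Fin.val h
        simp at this
      have e2 : ¬ (((Fin.castSucc (Fin.succ i)).val + 1) % (m + 1 + 1) =
          (0 : Fin (m + 2)).val) := by
        simp only [Fin.val_castSucc, Fin.val_succ, Fin.val_zero]
        rw [Nat.mod_eq_of_lt (by omega)]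
        omega
      unfold cyc
      rw [Matrix.of_apply, if_neg e1, if_neg e2]
      simp
    have h2 : cyc (m + 1) (Fin.castSucc (0 : Fin (m + 1))) 0 = 1 := by
      have e2 : ¬ (((Fin.castSucc (0 : Fin (m + 1))).val + 1) % (m + 1 + 1) =
          (0 : Fin (m + 2)).val) := by
        simp only [Fin.val_castSucc, Fin.val_zero]
        rw [Nat.mod_eq_of_lt (by omega)]
        omega
      unfold cyc
      rw [Matrix.of_apply, if_pos (by rfl), if_neg e2]
      simp
    have h3 : cyc (m + 1) (Fin.last (m + 1)) 0 = - X := by
      have e1 : ¬ (Fin.last (m + 1) = (0 : Fin (m + 2))) := by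
        intro h
        have := congrArg Fin.val h
        simp at this
      have e2 : (((Fin.last (m + 1))).val + 1) % (m + 1 + 1) = (0 : Fin (m + 2)).val := by
        simp only [Fin.val_last, Fin.val_zero]
        exact Nat.mod_self _
      unfold cyc
      rw [Matrix.of_apply, if_neg e1, if_pos e2]
      simp
    have h4 : ((cyc (m + 1)).submatrix (Fin.succAbove (Fin.castSucc (0 : Fin (m + 1))))
        Fin.succ).det = 1 := by
      rw [Matrix.det_of_upperTriangular]
      · apply Finset.prod_eq_one
        intro i _
        have e0 : (Fin.castSucc (0 : Fin (m + 1))).succAbove i = i.succ := by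
          rw [Fin.castSucc_zero, Fin.zero_succAbove]
        have e2 : ¬ ((i.succ.val + 1) % (m + 1 + 1) = i.succ.val) := by
          intro h
          rcases Nat.lt_or_ge (i.succ.val + 1) (m + 1 + 1) with h' | h'
          · rw [Nat.mod_eq_of_lt h'] at h
            omega
          · have h'' : i.succ.val + 1 = m + 1 + 1 := by have := i.succ.isLt; omega
            rw [h'', Nat.mod_self] at h
            simp at h
        rw [Matrix.submatrix_apply, e0]
        unfold cyc
        rw [Matrix.of_apply, if_pos rfl, if_neg e2]
        simp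
      · intro i j hij
        have hij' : j.val < i.val := hij
        have e0 : (Fin.castSucc (0 : Fin (m + 1))).succAbove i = i.succ := by
          rw [Fin.castSucc_zero, Fin.zero_succAbove]
        have e1 : ¬ (i.succ = j.succ) := by
          intro h
          have := congrArg Fin.val h
          simp only [Fin.val_succ] at this
          omega
        have e2 : ¬ ((i.succ.val + 1) % (m + 1 + 1) = j.succ.val) := by
          intro h
          simp only [Fin.val_succ] at h
          rcases Nat.lt_or_ge (i.val + 1 + 1) (m + 1 + 1) with h' | h'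
          · rw [Nat.mod_eq_of_lt h'] at h
            omega
          · have h'' : i.val + 1 + 1 = m + 1 + 1 := by have := i.isLt; omega
            rw [h'', Nat.mod_self] at h
            omega
        rw [Matrix.submatrix_apply, e0]
        unfold cyc
        rw [Matrix.of_apply, if_neg e1, if_neg e2]
        simp
    have h5 : ((cyc (m + 1)).submatrix (Fin.succAbove (Fin.last (m + 1))) Fin.succ).det =
        (-X) ^ (m + 1) := by
      have hdiag : ∀ i : Fin (m + 1), (cyc (m + 1)).submatrix (Fin.succAbove (Fin.last (m + 1)))
          Fin.succ i i = - X := by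
        intro i
        have hi := i.isLt
        have e1 : ¬ (i.castSucc = i.succ) := by
          intro h
          have := congrArg Fin.val h
          simp at this
        have e2 : ((i.castSucc.val + 1) % (m + 1 + 1) = i.succ.val) := by
          simp only [Fin.val_castSucc, Fin.val_succ]
          exact Nat.mod_eq_of_lt (by omega)
        rw [Matrix.submatrix_apply, Fin.succAbove_last]
        unfold cyc
        rw [Matrix.of_apply, if_neg e1, if_pos e2]
        simp
      rw [Matrix.det_of_lowerTriangular]
      · rw [Finset.prod_congr rfl fun i _ => hdiag i]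
        simp
      · intro i j hij
        have hij' : i.val < j.val := hij
        have e1 : ¬ (i.castSucc = j.succ) := by
          intro h
          have := congrArg Fin.val h
          simp only [Fin.val_succ, Fin.val_castSucc] at this
          omega
        have e2 : ¬ ((i.castSucc.val + 1) % (m + 1 + 1) = j.succ.val) := by
          intro h
          simp only [Fin.val_castSucc, Fin.val_succ] at h
          have hi := i.isLt
          rw [Nat.mod_eq_of_lt (by omega)] at h
          omega
        rw [Matrix.submatrix_apply, Fin.succAbove_last]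
        unfold cyc
        rw [Matrix.of_apply, if_neg e1, if_neg e2]
        simp
    rw [h2, h3, h4, h5, Finset.sum_eq_zero (fun i _ => by rw [h1 i]; ring)]
    simp only [Fin.val_castSucc, Fin.val_zero, Fin.val_last, pow_zero]
    have hs : ((-1 : Polynomial ℤ)) ^ (m + 1) * (-X) ^ (m + 1) = X ^ (m + 1) := by
      rw [← mul_pow]; simp
    calc (1 : Polynomial ℤ) * 1 * 1 + 0 + (-1) ^ (m + 1) * -X * (-X) ^ (m + 1)
        = 1 - X * ((-1) ^ (m + 1) * (-X) ^ (m + 1)) := by ring
      _ = 1 - X ^ (m + 1 + 1) := by rw [hs]; ring

section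

variable {G : Type} [Fintype G] [DecidableEq G] [Group G]

/-- the enumeration of a coset decomposition -/
noncomputable def em (g : G) (k : ℕ) (p : Fin k × (G ⧸ Subgroup.zpowers g)) : G :=
  p.2.out * g ^ p.1.val

theorem em_inj (g : G) (k : ℕ) (hk : orderOf g = k) : Function.Injective (em g k) := by
  rintro ⟨i, q⟩ ⟨j, q'⟩ h
  have h' : q.out * g ^ i.val = q'.out * g ^ j.val := h
  have hq : q = q' := by
    have h1 : (QuotientGroup.mk (q.out * g ^ i.val) : G ⧸ Subgroup.zpowers g) = q := by
      rw [QuotientGroup.mk_mul_of_mem q.out (Subgroup.npow_mem_zpowers g i.val)]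
      exact QuotientGroup.out_eq' q
    have h2 : (QuotientGroup.mk (q'.out * g ^ j.val) : G ⧸ Subgroup.zpowers g) = q' := by
      rw [QuotientGroup.mk_mul_of_mem q'.out (Subgroup.npow_mem_zpowers g j.val)]
      exact QuotientGroup.out_eq' q'
    rw [← h1, ← h2, h']
  subst hq
  have h3 : g ^ i.val = g ^ j.val := mul_left_cancel h'
  have h4 : i.val = j.val := by
    apply pow_injOn_Iio_orderOf (x := g) _ _ h3
    · show i.val < orderOf g
      rw [hk]; exact i.isLt
    · show j.val < orderOf g
      rw [hk]; exact j.isLt
  rw [Fin.ext h4]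

theorem em_surj (g : G) (k : ℕ) (hk : orderOf g = k) : Function.Surjective (em g k) := by
  intro a
  have h1 : ((QuotientGroup.mk a : G ⧸ Subgroup.zpowers g).out)⁻¹ * a ∈ Subgroup.zpowers g := by
    rw [← QuotientGroup.eq]
    exact QuotientGroup.out_eq' _
  rw [mem_zpowers_iff_mem_range_orderOf] at h1
  rw [Finset.mem_image] at h1
  obtain ⟨i, hi, he⟩ := h1
  rw [Finset.mem_range, hk] at hi
  refine ⟨(⟨i, hi⟩, QuotientGroup.mk a), ?_⟩
  show (QuotientGroup.mk a : G ⧸ Subgroup.zpowers g).out * g ^ i = a
  rw [he]
  group

/-- the matrix `1 - X ρ(g)` on the regular part -/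
noncomputable def regM (g : G) : Matrix G G (Polynomial ℤ) :=
  Matrix.of fun a b => (if a = b then 1 else 0) - X * (if a * g = b then 1 else 0)

theorem det_regM (g : G) :
    (regM g).det = (1 - X ^ orderOf g) ^ (Fintype.card G / orderOf g) := by
  classical
  obtain ⟨n, hn⟩ : ∃ n, orderOf g = n + 1 := ⟨orderOf g - 1, by have := orderOf_pos g; omega⟩
  have : Fintype (G ⧸ Subgroup.zpowers g) := Fintype.ofFinite _
  let e : Fin (n + 1) × (G ⧸ Subgroup.zpowers g) ≃ G :=
    Equiv.ofBijective (em g (n + 1)) ⟨em_inj g _ hn, em_surj g _ hn⟩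
  have he : ∀ p, e p = em g (n + 1) p := fun _ => rfl
  have hM : (regM g).submatrix e e = Matrix.blockDiagonal fun _ => cyc n := by
    ext1 ⟨i, q⟩ ⟨j, q'⟩
    rw [Matrix.submatrix_apply, Matrix.blockDiagonal_apply]
    have h1 : (e (i, q) = e (j, q')) ↔ (q = q' ∧ i = j) := by
      rw [e.apply_eq_iff_eq, Prod.mk.injEq]
      tauto
    have hlt : (i.val + 1) % (n + 1) < n + 1 := Nat.mod_lt _ (by omega)
    have h2 : e (i, q) * g = e (⟨(i.val + 1) % (n + 1), hlt⟩, q) := by
      show q.out * g ^ i.val * g = q.out * g ^ ((i.val + 1) % (n + 1))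
      have hp : g ^ ((i.val + 1) % (n + 1)) = g ^ (i.val + 1) := by
        have := pow_mod_orderOf g (i.val + 1)
        rwa [hn] at this
      rw [hp, pow_succ, mul_assoc]
    have h3 : (e (i, q) * g = e (j, q')) ↔ (q = q' ∧ (i.val + 1) % (n + 1) = j.val) := by
      rw [h2, e.apply_eq_iff_eq, Prod.mk.injEq, Fin.ext_iff]
      tauto
    unfold regM cyc
    rw [Matrix.of_apply, Matrix.of_apply]
    by_cases hq : q = q'
    · subst hq
      rw [if_pos rfl]
      simp only [h1, h3, true_and]
    · rw [if_neg hq]
      simp only [h1, h3, hq, false_and, if_false]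
      simp
  rw [← Matrix.det_submatrix_equiv_self e (regM g), hM, Matrix.det_blockDiagonal,
    Finset.prod_const, det_cyc, Finset.card_univ, hn]
  congr 1
  have h1 : Nat.card G = Nat.card (G ⧸ Subgroup.zpowers g) * Nat.card (Subgroup.zpowers g) :=
    Subgroup.card_eq_card_quotient_mul_card_subgroup _
  rw [Nat.card_zpowers, hn, Nat.card_eq_fintype_card, Nat.card_eq_fintype_card] at h1
  rw [h1, Nat.mul_div_cancel _ (Nat.succ_pos n)]

end

theorem entry (J G : Type) [Fintype J] [DecidableEq J] [Fintype G] [DecidableEq G] [Group G]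
    (g : G) (i j : Ix J G) :
    linMat (actP J G g) i j = if (perm J G g).symm i = j then 1 else 0 := by
  unfold linMat
  rw [LinearMap.toMatrix'_apply]
  show (Pi.single j (1 : ℤ) : Ix J G → ℤ) ((perm J G g).symm i) = _
  rw [Pi.single_apply]

end DetAux

open DetAux in
theorem det_perm : DET_stm := by
  intro J G _ _ _ _ _ g
  have hM : (1 - (Polynomial.X : Polynomial ℤ) • (linMat (actP J G g)).map Polynomial.C) =
      Matrix.fromBlocks
        (Matrix.fromBlocks ((1 - Polynomial.X : Polynomial ℤ) • (1 : Matrix J J (Polynomial ℤ)))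
          0 0 (regM g)) 0 0
        ((1 - Polynomial.X : Polynomial ℤ) • (1 : Matrix (Fin 2) (Fin 2) (Polynomial ℤ))) := by
    ext1 i j
    rw [Matrix.sub_apply, Matrix.smul_apply, Matrix.map_apply, entry, Matrix.one_apply]
    rcases i with (i | i) | i
    · have h0 : (perm J G g).symm (Sum.inl (Sum.inl i)) = Sum.inl (Sum.inl i) := rfl
      rw [h0]
      rcases j with (j | j) | j
      · by_cases hij : i = j
        · subst hij
          simp
        · simp [hij]
      · simp
      · simp
    · have h0 : (perm J G g).symm (Sum.inl (Sum.inr i)) = Sum.inl (Sum.inr (i * g)) := by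
        rw [Equiv.symm_apply_eq]
        show _ = Sum.inl (Sum.inr (i * g * g⁻¹))
        rw [mul_inv_cancel_right]
      rw [h0]
      rcases j with (j | j) | j
      · simp
      · by_cases hij : i = j <;> by_cases hij' : i * g = j <;> simp [hij, hij', regM]
      · simp
    · have h0 : (perm J G g).symm (Sum.inr i) = Sum.inr i := rfl
      rw [h0]
      rcases j with (j | j) | j
      · simp
      · simp
      · by_cases hij : i = j
        · subst hij
          simp
        · simp [hij]
  rw [hM, Matrix.det_fromBlocks_zero₂₁, Matrix.det_fromBlocks_zero₂₁, det_regM,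
    Matrix.det_smul, Matrix.det_smul, Matrix.det_one, Matrix.det_one, Fintype.card_fin]
  ring

end Pool.Agent.N355.EH
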