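import Pool.Agent.N355.EH.Stm

set_option autoImplicit false
open scoped Pointwise

/-!
# EH/GFF: generating function of invariant vectors
-/

namespace Pool.Agent.N355.EH

open PowerSeries Pool.Agent.H160R3

theorem gfs : GFS_stm := by
  intro J _ c hc
  refine Fintype.induction_empty_option (P := fun J _ =>
    FF (fun k : J → ℕ => c * hSum k) ∧
      ser (fun k : J → ℕ => c * hSum k) * (1 - X ^ c) ^ Fintype.card J = 1) ?_ ?_ ?_ J
  · intro α β _ e h
    letI : Fintype α := Fintype.ofEquiv β e.symm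
    have he : ∀ k : α → ℕ, c * hSum ((Equiv.arrowCongr e (Equiv.refl ℕ)) k) = c * hSum k := by
      intro k
      unfold hSum
      congr 1
      rw [← Equiv.sum_comp e]
      refine Finset.sum_congr rfl fun a _ => ?_
      simp [Equiv.arrowCongr]
    obtain ⟨h1, h2⟩ := h
    refine ⟨FF_congr (Equiv.arrowCongr e (Equiv.refl ℕ)) he h1, ?_⟩
    rw [← ser_congr _ _ (Equiv.arrowCongr e (Equiv.refl ℕ)) he, ← Fintype.card_congr e]
    exact h2
  · have h0 : (fun k : PEmpty.{1} → ℕ => c * hSum k) = fun _ => 0 := by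
      funext k
      simp [hSum]
    rw [h0]
    refine ⟨fun m => inferInstance, ?_⟩
    rw [Fintype.card_eq_zero, pow_zero, mul_one]
    ext m
    rw [coeff_ser, PowerSeries.coeff_one]
    split_ifs with h
    · subst h
      have : Nat.card {a : PEmpty.{1} → ℕ // (fun _ : PEmpty.{1} → ℕ => 0) a = 0} = 1 := by
        rw [Nat.card_eq_one_iff_unique]
        exact ⟨inferInstance, ⟨⟨fun x => x.elim, rfl⟩⟩⟩
      rw [this]; rfl
    · have : IsEmpty {a : PEmpty.{1} → ℕ // (fun _ : PEmpty.{1} → ℕ => 0) a = m} := ⟨fun a => h a.2.symm⟩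
      simp
  · intro α _ h
    obtain ⟨h1, h2⟩ := h
    have he : ∀ k : Option α → ℕ,
        c * ((Equiv.piOptionEquivProd (β := fun _ : Option α => ℕ)) k).1 +
          c * hSum ((Equiv.piOptionEquivProd (β := fun _ : Option α => ℕ)) k).2 = c * hSum k := by
      intro k
      unfold hSum
      rw [Fintype.sum_option, mul_add]
      rfl
    have h3 := FF_prod (FF_mul hc) h1
    refine ⟨FF_congr (Equiv.piOptionEquivProd (β := fun _ : Option α => ℕ)).symm
      (fun p => ?_) h3, ?_⟩
    · rw [← he, Equiv.apply_symm_apply]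
    · rw [ser_congr (fun k : Option α → ℕ => c * hSum k)
        (fun p : ℕ × (α → ℕ) => c * p.1 + c * hSum p.2)
        (Equiv.piOptionEquivProd (β := fun _ : Option α => ℕ)) he, ser_prod (FF_mul hc) h1,
        Fintype.card_option, pow_succ]
      have h4 := ser_mul hc
      calc _ = (ser (fun k : α → ℕ => c * hSum k) * (1 - X ^ c) ^ Fintype.card α) *
            (ser (fun n : ℕ => c * n) * (1 - X ^ c)) := by ring
        _ = 1 := by rw [h2, h4, one_mul]

namespace GenF

variable {G : Type} [Group G]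

/-- `G` is the product of the quotient and the subgroup -/
noncomputable def eQ (H : Subgroup G) : G ≃ (G ⧸ H) × H where
  toFun a := (QuotientGroup.mk a, ⟨(Quotient.out (QuotientGroup.mk a : G ⧸ H))⁻¹ * a, by
    rw [← QuotientGroup.eq]
    exact Quotient.out_eq' _⟩)
  invFun p := Quotient.out p.1 * p.2
  left_inv a := by simp
  right_inv := by
    rintro ⟨q, s, hs⟩
    have h1 : (QuotientGroup.mk (Quotient.out q * s) : G ⧸ H) = q := by
      rw [QuotientGroup.mk_mul_of_mem _ hs]
      exact Quotient.out_eq' _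
    refine Prod.ext h1 (Subtype.ext ?_)
    simp only [h1]
    group

theorem eQ_symm (H : Subgroup G) (p : (G ⧸ H) × H) :
    (QuotientGroup.mk ((eQ H).symm p) : G ⧸ H) = p.1 :=
  congrArg Prod.fst ((eQ H).apply_symm_apply p)

/-- sums over the group of functions on the quotient -/
theorem sum_quot [Fintype G] (H : Subgroup G) [Fintype (G ⧸ H)] (f : (G ⧸ H) → ℕ) :
    ∑ a : G, f (QuotientGroup.mk a) = Nat.card H * ∑ q, f q := by
  classical
  have : Finite H := Subtype.finite
  let _ : Fintype H := Fintype.ofFinite H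
  rw [← Equiv.sum_comp (eQ H).symm]
  simp only [eQ_symm]
  rw [Fintype.sum_prod_type]
  simp only [Finset.sum_const, Finset.card_univ, smul_eq_mul]
  rw [← Finset.mul_sum, Nat.card_eq_fintype_card]

/-- the invariant functions -/
abbrev Inv (g : G) : Type := {y : G → ℕ // ∀ a, y (a * g) = y a}

theorem inv_zpow {g : G} (y : Inv g) (a : G) (n : ℤ) : y.1 (a * g ^ n) = y.1 a := by
  induction n using Int.induction_on with
  | zero => rw [zpow_zero, mul_one]
  | succ n ih => rw [zpow_add_one, ← mul_assoc, y.2, ih]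
  | pred n ih =>
    rw [← ih, ← y.2 (a * g ^ (-(n : ℤ) - 1)), mul_assoc, ← zpow_add_one, sub_add_cancel]

/-- the invariant functions are the functions on the quotient -/
noncomputable def eInv (g : G) : (G ⧸ Subgroup.zpowers g → ℕ) ≃ Inv g where
  toFun z := ⟨fun a => z (QuotientGroup.mk a), fun a => by
    show z (QuotientGroup.mk (a * g)) = z (QuotientGroup.mk a)
    rw [QuotientGroup.mk_mul_of_mem _ (Subgroup.mem_zpowers g)]⟩
  invFun y := fun q => y.1 (Quotient.out q)
  left_inv z := by
    funext q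
    show z (QuotientGroup.mk (Quotient.out q)) = z q
    congr 1
    exact Quotient.out_eq' _
  right_inv y := by
    apply Subtype.ext
    funext a
    show y.1 (Quotient.out (QuotientGroup.mk a : G ⧸ Subgroup.zpowers g)) = y.1 a
    have h1 : (Quotient.out (QuotientGroup.mk a : G ⧸ Subgroup.zpowers g))⁻¹ * a ∈
        Subgroup.zpowers g := by
      rw [← QuotientGroup.eq]
      exact Quotient.out_eq' _
    obtain ⟨n, hn⟩ := Subgroup.mem_zpowers_iff.1 h1
    have h2 := inv_zpow y (Quotient.out (QuotientGroup.mk a : G ⧸ Subgroup.zpowers g)) n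
    rw [hn, mul_inv_cancel_left] at h2
    exact h2.symm

/-- the pairs of height `m` -/
def eP [Fintype G] (g : G) (m : ℕ) : {p : TF G g // hF p = m} ≃
    {y : Inv g // hSum y.1 = m} × Fin (m + 1) where
  toFun p := (⟨⟨p.1.1.1, p.1.2.1⟩, p.2⟩, ⟨p.1.1.2, by
    have h1 := p.1.2.2
    have h2 : hSum p.1.1.1 = m := p.2
    omega⟩)
  invFun q := ⟨⟨(q.1.1.1, q.2.1), q.1.1.2, by
    have h1 := q.2.2
    have h2 : hSum q.1.1.1 = m := q.1.2
    show (q.2 : ℕ) ≤ hSum q.1.1.1
    omega⟩, q.1.2⟩
  left_inv p := rfl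
  right_inv q := rfl

end GenF

open GenF

theorem gff : GFF_stm := by
  intro G _ _ g
  classical
  haveI : Finite (G ⧸ Subgroup.zpowers g) := inferInstance
  letI : Fintype (G ⧸ Subgroup.zpowers g) := Fintype.ofFinite _
  obtain ⟨k, hk⟩ : ∃ k, k = orderOf g := ⟨_, rfl⟩
  obtain ⟨r, hr⟩ : ∃ r, r = Fintype.card G / orderOf g := ⟨_, rfl⟩
  have hk0 : 0 < k := by rw [hk]; exact orderOf_pos g
  have hkc : Nat.card (Subgroup.zpowers g) = k := by rw [hk, Nat.card_zpowers]
  have hcard : Fintype.card G = Fintype.card (G ⧸ Subgroup.zpowers g) * k := by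
    rw [← hkc, ← Nat.card_eq_fintype_card, ← Nat.card_eq_fintype_card]
    exact Subgroup.card_eq_card_quotient_mul_card_subgroup _
  have hrc : Fintype.card (G ⧸ Subgroup.zpowers g) = r := by
    rw [hr, hcard, ← hk, Nat.mul_div_cancel _ hk0]
  have hrk : r * k = Fintype.card G := by rw [hcard, hrc]
  -- the invariant functions
  have he : ∀ z : (G ⧸ Subgroup.zpowers g) → ℕ, hSum (eInv g z).1 = k * hSum z := by
    intro z
    unfold hSum
    have := sum_quot (Subgroup.zpowers g) z
    rw [hkc] at this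
    exact this
  obtain ⟨g1, g2⟩ := gfs (G ⧸ Subgroup.zpowers g) k hk0
  have f1 : FF (fun y : Inv g => hSum y.1) := FF_congr (eInv g) he g1
  obtain ⟨A, hA⟩ : ∃ A, A = ser (fun y : Inv g => hSum y.1) := ⟨_, rfl⟩
  have f2 : A * (1 - X ^ k) ^ r = 1 := by
    rw [hA, ← ser_congr _ _ (eInv g) he, ← hrc]
    exact g2
  have hFF : FF (hF (g := g)) := by
    intro m
    haveI := f1 m
    exact Finite.of_equiv _ (eP g m).symm
  refine ⟨hFF, ?_⟩
  have f3 : ser (hF (g := g)) = A + X * derivative ℤ A := by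
    ext m
    have h1 : coeff m (X * derivative ℤ A) = m * coeff m A := by
      rcases m with _ | m
      · rw [coeff_zero_eq_constantCoeff_apply, map_mul, constantCoeff_X, zero_mul]
        simp
      · rw [coeff_succ_X_mul, coeff_derivative, mul_comm]
        push_cast
        ring
    rw [map_add, h1, coeff_ser, Nat.card_congr (eP g m), Nat.card_prod,
      Nat.card_eq_fintype_card (α := Fin (m + 1)), Fintype.card_fin, hA, coeff_ser]
    push_cast
    ring
  rw [← hr, ← hk, f3]
  obtain ⟨D, hD⟩ : ∃ D : PowerSeries ℤ, D = (1 - X ^ k) ^ r := ⟨_, rfl⟩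
  rw [← hD] at f2
  have d1 : derivative ℤ A * D + A * derivative ℤ D = 0 := by
    have h1 := congrArg (derivative ℤ) f2
    rw [Derivation.leibniz, Derivation.map_one_eq_zero, smul_eq_mul, smul_eq_mul] at h1
    linear_combination h1
  have d2 : X * (derivative ℤ D * (1 - X ^ k)) = - ((r * k : ℕ) : PowerSeries ℤ) * X ^ k * D := by
    have h1 : derivative ℤ (1 - X ^ k : PowerSeries ℤ) = - ((k : PowerSeries ℤ) * X ^ (k - 1)) := by
      rw [map_sub, Derivation.map_one_eq_zero, Derivation.leibniz_pow, derivative_X, zero_sub,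
        smul_eq_mul, mul_one, nsmul_eq_mul]
    have h2 : X * X ^ (k - 1) = (X ^ k : PowerSeries ℤ) := by
      rw [← pow_succ', Nat.sub_add_cancel hk0]
    rw [hD, Derivation.leibniz_pow, h1, nsmul_eq_mul, smul_eq_mul]
    push_cast
    rcases r with _ | r
    · simp
    · rw [Nat.add_sub_cancel, pow_succ (1 - X ^ k : PowerSeries ℤ) r]
      linear_combination (-(((r + 1 : ℕ) : PowerSeries ℤ) * k * (1 - X ^ k) ^ r * (1 - X ^ k))) * h2
  rw [hrk] at d2
  have e1 : (C ((Fintype.card G : ℤ) - 1) : PowerSeries ℤ) = (Fintype.card G : PowerSeries ℤ) - 1 := by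
    rw [map_sub, map_natCast, map_one]
  rw [e1, pow_succ, ← hD]
  linear_combination (1 - X ^ k + (Fintype.card G : PowerSeries ℤ) * X ^ k) * f2 +
    (X * (1 - X ^ k)) * d1 - A * d2

end Pool.Agent.N355.EH
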