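import Pool.Agent.N355.EH.Stm

set_option autoImplicit false
set_option linter.unusedSectionVars false
open scoped Pointwise

/-!
Project EH, part HULL: the lattice points of the dilated polytope.
-/

namespace Pool.Agent.N355.EH

open Pool.Agent.H160R3

section

variable {J G : Type} [Fintype J] [DecidableEq J] [Fintype G] [DecidableEq G]

lemma hull_sumK (f : Kx J G → ℝ) : ∑ k, f k = f (Sum.inl (Sum.inl 0)) + f (Sum.inl (Sum.inl 1)) +
    ∑ j, f (Sum.inl (Sum.inr j)) + ∑ a, (f (Sum.inr (a, 0)) + f (Sum.inr (a, 1))) := by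
  rw [Fintype.sum_sum_type, Fintype.sum_sum_type, Fintype.sum_prod_type, Fin.sum_univ_two]
  simp only [Fin.sum_univ_two]

lemma hull_s (n : ℕ) (c : Kx J G → ℝ) (j : J) :
    (∑ k, c k • toReal (vert n k)) (Sum.inl (Sum.inl j)) =
      c (Sum.inl (Sum.inr j)) - c (Sum.inl (Sum.inl 1)) := by
  rw [Finset.sum_apply, hull_sumK]
  simp [toReal, vert, Pi.single_apply]
  ring

lemma hull_y (n : ℕ) (c : Kx J G → ℝ) (a : G) :
    (∑ k, c k • toReal (vert n k)) (Sum.inl (Sum.inr a)) =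
      c (Sum.inr (a, 0)) + c (Sum.inr (a, 1)) := by
  rw [Finset.sum_apply, hull_sumK]
  simp [toReal, vert, Pi.single_apply, Finset.sum_add_distrib]

lemma hull_u (n : ℕ) (c : Kx J G → ℝ) :
    (∑ k, c k • toReal (vert n k)) (Sum.inr 0) = n * c (Sum.inl (Sum.inl 1)) := by
  rw [Finset.sum_apply, hull_sumK]
  simp [toReal, vert, mul_comm]

lemma hull_w (n : ℕ) (c : Kx J G → ℝ) :
    (∑ k, c k • toReal (vert n k)) (Sum.inr 1) = ∑ a, c (Sum.inr (a, 1)) := by
  rw [Finset.sum_apply, hull_sumK]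
  simp [toReal, vert]

/-- the inequalities over `ℝ` -/
lemma ineq_real (n : ℕ) (x : Ix J G → ℤ) (m : ℕ) :
    Ineq n x m ↔ (0 : ℝ) ≤ x (Sum.inr 0) ∧
      (∀ j : J, (0 : ℝ) ≤ n * x (Sum.inl (Sum.inl j)) + x (Sum.inr 0)) ∧
      (∀ a : G, (0 : ℝ) ≤ x (Sum.inl (Sum.inr a))) ∧
      (0 : ℝ) ≤ x (Sum.inr 1) ∧
      (x (Sum.inr 1) : ℝ) ≤ ∑ a : G, (x (Sum.inl (Sum.inr a)) : ℝ) ∧
      ((Fintype.card J : ℝ) + 1) * x (Sum.inr 0) ≤
        n * ((m : ℝ) - ∑ j : J, (x (Sum.inl (Sum.inl j)) : ℝ) -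
          ∑ a : G, (x (Sum.inl (Sum.inr a)) : ℝ)) := by
  unfold Ineq
  refine and_congr (by exact_mod_cast Iff.rfl) (and_congr ?_ (and_congr ?_
    (and_congr (by exact_mod_cast Iff.rfl) (and_congr ?_ ?_))))
  · exact forall_congr' fun j => by exact_mod_cast Iff.rfl
  · exact forall_congr' fun j => by exact_mod_cast Iff.rfl
  · exact_mod_cast Iff.rfl
  · exact_mod_cast Iff.rfl

end

/-- **HULL**. -/
theorem hull : HULL_stm := by
  intro J G _ _ _ _ n hn x m
  rw [ineq_real]
  have hn' : (0 : ℝ) < n := by exact_mod_cast hn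
  constructor
  · intro hx
    obtain ⟨c, hc, hcm, hxc⟩ := exists_of_mem_smul_hull (fun k : Kx J G => toReal (vert n k))
      (m : ℝ) (Nat.cast_nonneg m) (toReal x) hx
    rw [hull_sumK] at hcm
    have hs : ∀ j, (x (Sum.inl (Sum.inl j)) : ℝ) =
        c (Sum.inl (Sum.inr j)) - c (Sum.inl (Sum.inl 1)) := fun j => by
      rw [← hull_s n c j, ← hxc]; rfl
    have hy : ∀ a, (x (Sum.inl (Sum.inr a)) : ℝ) = c (Sum.inr (a, 0)) + c (Sum.inr (a, 1)) :=
      fun a => by rw [← hull_y n c a, ← hxc]; rfl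
    have hu : (x (Sum.inr 0) : ℝ) = n * c (Sum.inl (Sum.inl 1)) := by
      rw [← hull_u n c, ← hxc]; rfl
    have hw : (x (Sum.inr 1) : ℝ) = ∑ a, c (Sum.inr (a, 1)) := by
      rw [← hull_w n c, ← hxc]; rfl
    have h1 := hc (Sum.inl (Sum.inl 1))
    have h0 := hc (Sum.inl (Sum.inl 0))
    refine ⟨?_, ?_, ?_, ?_, ?_, ?_⟩
    · rw [hu]; positivity
    · intro j
      rw [hs, hu]
      have := hc (Sum.inl (Sum.inr j))
      have h2 : (n : ℝ) * (c (Sum.inl (Sum.inr j)) - c (Sum.inl (Sum.inl 1))) +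
          n * c (Sum.inl (Sum.inl 1)) = n * c (Sum.inl (Sum.inr j)) := by ring
      rw [h2]; positivity
    · intro a
      rw [hy]
      exact add_nonneg (hc _) (hc _)
    · rw [hw]
      exact Finset.sum_nonneg fun a _ => hc _
    · rw [hw]
      refine Finset.sum_le_sum fun a _ => ?_
      rw [hy]
      linarith [hc (Sum.inr (a, 0))]
    · simp only [hs, hy, hu]
      rw [Finset.sum_sub_distrib, Finset.sum_const, Finset.card_univ, nsmul_eq_mul]
      have h3 : (m : ℝ) - (∑ j, c (Sum.inl (Sum.inr j)) -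
          (Fintype.card J : ℝ) * c (Sum.inl (Sum.inl 1))) -
          ∑ a, (c (Sum.inr (a, 0)) + c (Sum.inr (a, 1))) =
          c (Sum.inl (Sum.inl 0)) + ((Fintype.card J : ℝ) + 1) * c (Sum.inl (Sum.inl 1)) := by
        linarith
      rw [h3]
      have h4 : 0 ≤ (n : ℝ) * c (Sum.inl (Sum.inl 0)) := by positivity
      linarith
  · rintro ⟨h1, h2, h3, h4, h5, h6⟩
    -- the weights
    set u : ℝ := (x (Sum.inr 0) : ℝ) with hu
    set w : ℝ := (x (Sum.inr 1) : ℝ) with hw
    set Y : ℝ := ∑ a : G, (x (Sum.inl (Sum.inr a)) : ℝ) with hY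
    set S : ℝ := ∑ j : J, (x (Sum.inl (Sum.inl j)) : ℝ) with hS
    have hY0 : 0 ≤ Y := Finset.sum_nonneg fun a _ => h3 a
    have hwY0 : 0 ≤ w / Y := div_nonneg h4 hY0
    have hwY1 : w / Y ≤ 1 := div_le_one_of_le₀ h5 hY0
    have hwYY : w / Y * Y = w := by
      by_cases h : Y = 0
      · rw [h] at h5 ⊢
        have : w = 0 := le_antisymm h5 h4
        rw [this]; simp
      · exact div_mul_cancel₀ w h
    let c0 : ℝ := m - S - Y - ((Fintype.card J : ℝ) + 1) * (u / n)
    have hc0 : 0 ≤ c0 := by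
      have h7 : ((Fintype.card J : ℝ) + 1) * (u / n) ≤ (m : ℝ) - S - Y := by
        rw [← mul_div_assoc, div_le_iff₀ hn']
        linarith
      simp only [c0]; linarith
    let c : Kx J G → ℝ := fun k => match k with
      | Sum.inl (Sum.inl 0) => c0
      | Sum.inl (Sum.inl 1) => u / n
      | Sum.inl (Sum.inr j) => x (Sum.inl (Sum.inl j)) + u / n
      | Sum.inr (a, 0) => x (Sum.inl (Sum.inr a)) - w / Y * x (Sum.inl (Sum.inr a))
      | Sum.inr (a, 1) => w / Y * x (Sum.inl (Sum.inr a))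
    have hcn : ∀ k, 0 ≤ c k := by
      rintro ((k | j) | ⟨a, b⟩)
      · fin_cases k
        · exact hc0
        · exact div_nonneg h1 hn'.le
      · show 0 ≤ (x (Sum.inl (Sum.inl j)) : ℝ) + u / n
        have h7 := h2 j
        have h8 : (x (Sum.inl (Sum.inl j)) : ℝ) + u / n =
            (n * x (Sum.inl (Sum.inl j)) + u) / n := by
          field_simp
        rw [h8]
        exact div_nonneg h7 hn'.le
      · fin_cases b
        · show 0 ≤ (x (Sum.inl (Sum.inr a)) : ℝ) - w / Y * x (Sum.inl (Sum.inr a))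
          have := mul_le_mul_of_nonneg_right hwY1 (h3 a)
          linarith
        · exact mul_nonneg hwY0 (h3 a)
    have hcm : ∑ k, c k = m := by
      rw [hull_sumK]
      show c0 + u / n + ∑ j, ((x (Sum.inl (Sum.inl j)) : ℝ) + u / n) +
        ∑ a, ((x (Sum.inl (Sum.inr a)) : ℝ) - w / Y * x (Sum.inl (Sum.inr a)) +
          w / Y * x (Sum.inl (Sum.inr a))) = m
      simp only [sub_add_cancel]
      rw [Finset.sum_add_distrib, Finset.sum_const, Finset.card_univ, nsmul_eq_mul, ← hS, ← hY]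
      simp only [c0]
      ring
    have hxc : toReal x = ∑ k, c k • toReal (vert n k) := by
      funext i
      rcases i with (j | a) | b
      · rw [hull_s]
        show (x (Sum.inl (Sum.inl j)) : ℝ) = (x (Sum.inl (Sum.inl j)) : ℝ) + u / n - u / n
        ring
      · rw [hull_y]
        show (x (Sum.inl (Sum.inr a)) : ℝ) =
          (x (Sum.inl (Sum.inr a)) : ℝ) - w / Y * x (Sum.inl (Sum.inr a)) +
          w / Y * x (Sum.inl (Sum.inr a))
        ring
      · fin_cases b
        · refine Eq.trans ?_ (hull_u n c).symm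
          show u = n * (u / n)
          field_simp
        · refine Eq.trans ?_ (hull_w n c).symm
          show w = ∑ a, w / Y * (x (Sum.inl (Sum.inr a)) : ℝ)
          rw [← Finset.mul_sum, ← hY, hwYY]
    rw [hxc]
    exact mem_smul_hull (fun k : Kx J G => toReal (vert n k)) c hcn m hcm

end Pool.Agent.N355.EH
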