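import Pool.Agent.N355.EH.Stm

set_option autoImplicit false
open scoped Pointwise

/-!
# EH/SPAN: the polytope has full dimension
-/

namespace Pool.Agent.N355.EH

namespace Span

variable {J G : Type} [Fintype J] [DecidableEq J] [Fintype G] [DecidableEq G]

theorem v0 (n : ℕ) : toReal (vert (J := J) (G := G) n (Sum.inl (Sum.inl 0))) = 0 := by
  funext i
  simp [toReal, vert]

theorem vs (n : ℕ) (j : J) : toReal (vert (J := J) (G := G) n (Sum.inl (Sum.inr j))) =
    Pi.single (Sum.inl (Sum.inl j)) 1 := by
  funext i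
  rcases i with (i | i) | i
  · by_cases h : i = j
    · subst h; simp [toReal, vert]
    · have h2 : (Sum.inl (Sum.inl i) : Ix J G) ≠ Sum.inl (Sum.inl j) := by simpa using h
      rw [Pi.single_eq_of_ne h2]
      simp [toReal, vert, Pi.single_eq_of_ne h]
  · simp [toReal, vert]
  · fin_cases i <;> simp [toReal, vert]

theorem vy (n : ℕ) (a : G) : toReal (vert (J := J) (G := G) n (Sum.inr (a, 0))) =
    Pi.single (Sum.inl (Sum.inr a)) 1 := by
  funext i
  rcases i with (i | i) | i
  · simp [toReal, vert]
  · by_cases h : i = a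
    · subst h; simp [toReal, vert]
    · have h2 : (Sum.inl (Sum.inr i) : Ix J G) ≠ Sum.inl (Sum.inr a) := by simpa using h
      rw [Pi.single_eq_of_ne h2]
      simp [toReal, vert, Pi.single_eq_of_ne h]
  · fin_cases i <;> simp [toReal, vert]

theorem vw (n : ℕ) (a : G) : toReal (vert (J := J) (G := G) n (Sum.inr (a, 1))) -
    toReal (vert (J := J) (G := G) n (Sum.inr (a, 0))) = Pi.single (Sum.inr 1) 1 := by
  funext i
  rcases i with (i | i) | i
  · simp [toReal, vert]
  · simp [toReal, vert]
  · fin_cases i <;> simp [toReal, vert, Pi.single_apply]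

theorem vu (n : ℕ) : toReal (vert (J := J) (G := G) n (Sum.inl (Sum.inl 1))) +
    ∑ j : J, toReal (vert (J := J) (G := G) n (Sum.inl (Sum.inr j))) =
      (n : ℝ) • Pi.single (Sum.inr 0) 1 := by
  simp only [vs]
  funext i
  rcases i with (i | i) | i
  · rw [Pi.add_apply, Finset.sum_apply, Finset.sum_eq_single i]
    · simp [toReal, vert]
    · intro j _ hj
      rw [Pi.single_eq_of_ne]
      simpa using hj.symm
    · intro h; exact absurd (Finset.mem_univ i) h
  · simp [toReal, vert]
  · fin_cases i <;> simp [toReal, vert, Pi.single_apply]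

end Span

open Span

theorem span : ∀ (J G : Type) [Fintype J] [DecidableEq J] [Fintype G] [DecidableEq G] [Nonempty G]
    (n : ℕ), 0 < n →
    affineSpan ℝ (Set.range fun k : Kx J G => toReal (vert n k)) = ⊤ := by
  intro J G _ _ _ _ _ n hn
  obtain ⟨a₀⟩ : Nonempty G := inferInstance
  obtain ⟨W, hW⟩ : ∃ W, W = affineSpan ℝ (Set.range fun k : Kx J G => toReal (vert n k)) :=
    ⟨_, rfl⟩
  rw [← hW]
  have hm : ∀ k : Kx J G, toReal (vert n k) ∈ W := by
    intro k
    rw [hW]
    exact subset_affineSpan ℝ _ ⟨k, rfl⟩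
  have hd : ∀ k : Kx J G, toReal (vert n k) ∈ W.direction := by
    intro k
    have h1 := AffineSubspace.vsub_mem_direction (hm k) (hm (Sum.inl (Sum.inl 0)))
    rw [v0, vsub_eq_sub, sub_zero] at h1
    exact h1
  have hn' : (n : ℝ) ≠ 0 := by positivity
  have he : ∀ i : Ix J G, (Pi.single i 1 : Ix J G → ℝ) ∈ W.direction := by
    intro i
    rcases i with (j | a) | t
    · rw [← vs n j]; exact hd _
    · rw [← vy n a]; exact hd _
    · fin_cases t
      · have h1 := W.direction.add_mem (hd (Sum.inl (Sum.inl 1)))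
          (W.direction.sum_mem (t := Finset.univ) fun (j : J) _ => hd (Sum.inl (Sum.inr j)))
        rw [vu] at h1
        have h2 := W.direction.smul_mem (n : ℝ)⁻¹ h1
        rw [smul_smul, inv_mul_cancel₀ hn', one_smul] at h2
        exact h2
      · have h1 := W.direction.sub_mem (hd (Sum.inr (a₀, 1))) (hd (Sum.inr (a₀, 0)))
        rw [vw] at h1
        exact h1
  rw [← AffineSubspace.direction_eq_top_iff_of_nonempty ⟨_, hm (Sum.inl (Sum.inl 0))⟩, eq_top_iff]
  intro x _
  rw [pi_eq_sum_univ' x]
  exact W.direction.sum_mem fun i _ => W.direction.smul_mem _ (he i)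

end Pool.Agent.N355.EH
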