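import Pool.Agent.N355.EH.Poly
import Pool.Agent.N355.EH.Hull
import Pool.Agent.N355.EH.Span
import Pool.Agent.N355.EH.Det
import Pool.Agent.N355.EH.GenF

set_option autoImplicit false
set_option linter.unusedSectionVars false
open scoped Pointwise

namespace Pool.Agent.N355.EH

open PowerSeries Pool.Agent.H160R3

section

variable {J G : Type} [Fintype J] [DecidableEq J] [Fintype G] [DecidableEq G] [Group G]

/-- the `H*`-polynomial of `P(G)` at `g`, with the quotient polynomial `Q` -/
theorem Hstar_eq {n : ℕ} (hn : 0 < n) (hJ : Fintype.card J + 2 = n * (n + 1))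
    (hG : Fintype.card G = n)
    (hspan : affineSpan ℝ (Set.range fun k : Kx J G => toReal (vert n k)) = ⊤) (g : G)
    (Q : Polynomial ℤ) (hQ : Q * (1 - Polynomial.X ^ orderOf g) = (1 - Polynomial.X) * TT n) :
    (PG J G n hspan).Hstar g =
      ((Q * (1 + Polynomial.C ((n : ℤ) - 1) * Polynomial.X ^ orderOf g) : Polynomial ℤ) :
        PowerSeries ℤ) := by
  have hk : 0 < orderOf g := orderOf_pos g
  have hne : (1 - X ^ orderOf g : PowerSeries ℤ) ≠ 0 := by
    intro h
    have := congrArg (PowerSeries.coeff 0) h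
    rw [map_sub, PowerSeries.coeff_X_pow, if_neg (by omega)] at this
    simp at this
  apply mul_right_cancel₀ hne
  have e1 : (PowerSeries.mk fun m => ((PG J G n hspan).chi m g : ℤ)) =
      ser (hS (J := J) (n := n)) * ser (hF (g := g)) := by
    rw [← ser_T hn hJ g gfs gff]
    ext m
    rw [PowerSeries.coeff_mk, chi_eq hn hspan hull]
  have e2 := (hS_ser (J := J) n gfs).2
  have e3 := (gff G g).2
  have e4 : Matrix.det (1 - (Polynomial.X : Polynomial ℤ) •
      (linMat ((PG J G n hspan).act g)).map Polynomial.C) =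
      (1 - Polynomial.X) ^ (Fintype.card J + 2) *
        (1 - Polynomial.X ^ orderOf g) ^ (Fintype.card G / orderOf g) := det_perm J G g
  have e5 := congrArg (fun p : Polynomial ℤ => (p : PowerSeries ℤ)) hQ
  simp only [TT] at e5
  push_cast at e5
  have e6 : (((∑ i ∈ Finset.range n, Polynomial.X ^ ((n + 1) * i) : Polynomial ℤ)) : PowerSeries ℤ) =
      ∑ i ∈ Finset.range n, (X : PowerSeries ℤ) ^ ((n + 1) * i) := by
    have := map_sum (Polynomial.coeToPowerSeries.ringHom (R := ℤ))
      (fun i => (Polynomial.X : Polynomial ℤ) ^ ((n + 1) * i)) (Finset.range n)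
    simp only [Polynomial.coeToPowerSeries.ringHom_apply, Polynomial.coe_pow, Polynomial.coe_X] at this
    exact this
  rw [e6] at e5
  rw [InvPolytope.Hstar, e1, e4]
  push_cast
  rw [← e2] at e5
  rw [hG] at e3 ⊢
  calc (1 - X) * ((1 - X) ^ (Fintype.card J + 2) * (1 - X ^ orderOf g) ^ (n / orderOf g)) *
        (ser (hS (J := J) (n := n)) * ser (hF (g := g))) * (1 - X ^ orderOf g)
      = ((1 - X) * (ser (hS (J := J) (n := n)) * (1 - X) ^ (Fintype.card J + 2))) *
          (ser (hF (g := g)) * (1 - X ^ orderOf g) ^ (n / orderOf g + 1)) := by ring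
    _ = (Q : PowerSeries ℤ) * (1 - X ^ orderOf g) * (1 + C ((n : ℤ) - 1) * X ^ orderOf g) := by
        rw [← e5, e3]
    _ = _ := by ring

theorem act_injective (n : ℕ)
    (hspan : affineSpan ℝ (Set.range fun k : Kx J G => toReal (vert n k)) = ⊤) :
    Function.Injective (PG J G n hspan).act := by
  intro g h hgh
  have h1 : ∀ x : Ix J G → ℤ, actP J G g x = actP J G h x := fun x => by
    have : (PG J G n hspan).act g x = (PG J G n hspan).act h x := by rw [hgh]
    exact this
  have h2 := congrFun (h1 (Pi.single (Sum.inl (Sum.inr g)) 1)) (Sum.inl (Sum.inr 1))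
  change (Pi.single (Sum.inl (Sum.inr g)) (1 : ℤ) : Ix J G → ℤ)
      ((perm J G g).symm (Sum.inl (Sum.inr 1))) =
    (Pi.single (Sum.inl (Sum.inr g)) (1 : ℤ) : Ix J G → ℤ)
      ((perm J G h).symm (Sum.inl (Sum.inr 1))) at h2
  have p1 : ∀ a : G, (perm J G a).symm (Sum.inl (Sum.inr 1)) = Sum.inl (Sum.inr a) := by
    intro a
    simp [perm]
  rw [p1, p1, Pi.single_eq_same, Pi.single_apply] at h2
  by_contra hne
  rw [if_neg] at h2
  · exact one_ne_zero h2
  · intro h3
    apply hne
    have := Sum.inl_injective h3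
    exact (Sum.inr_injective this).symm

theorem isPolynomial {n : ℕ} (hn : 0 < n) (hJ : Fintype.card J + 2 = n * (n + 1))
    (hG : Fintype.card G = n)
    (hspan : affineSpan ℝ (Set.range fun k : Kx J G => toReal (vert n k)) = ⊤) :
    (PG J G n hspan).IsPolynomial := by
  have h1 : ∀ g : G, ∃ R : Polynomial ℤ, (PG J G n hspan).Hstar g = (R : PowerSeries ℤ) := by
    intro g
    obtain ⟨Q, hQ, _, _⟩ := exists_Q n (orderOf g) hn (orderOf_pos g) (hG ▸ orderOf_dvd_card)
    exact ⟨_, Hstar_eq hn hJ hG hspan g Q hQ⟩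
  choose R hR using h1
  refine ⟨Finset.univ.sup fun g => (R g).natDegree, ?_⟩
  intro i hi g
  rw [hR g, Polynomial.coeff_coe]
  apply Polynomial.coeff_eq_zero_of_natDegree_lt
  exact lt_of_le_of_lt (Finset.le_sup (f := fun g => (R g).natDegree) (Finset.mem_univ g)) hi

theorem coeff_one {n : ℕ} (hn : 0 < n) (hJ : Fintype.card J + 2 = n * (n + 1))
    (hG : Fintype.card G = n)
    (hspan : affineSpan ℝ (Set.range fun k : Kx J G => toReal (vert n k)) = ⊤)
    (k : ℕ) (hk : 2 ≤ k) (hkn : k ≤ n) :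
    PowerSeries.coeff k ((PG J G n hspan).Hstar 1) = 0 := by
  rw [Hstar_eq hn hJ hG hspan 1 (TT n) (by rw [orderOf_one, pow_one, mul_comm]), Polynomial.coeff_coe,
    orderOf_one, pow_one, mul_add, mul_one, Polynomial.coeff_add, TT_coeff n k (by omega) hkn]
  have e : (TT n * (Polynomial.C ((n : ℤ) - 1) * Polynomial.X)).coeff k =
      ((n : ℤ) - 1) * (TT n).coeff (k - 1) := by
    have e1 : TT n * (Polynomial.C ((n : ℤ) - 1) * Polynomial.X) =
        Polynomial.C ((n : ℤ) - 1) * (TT n * Polynomial.X) := by ring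
    rw [e1, Polynomial.coeff_C_mul]
    have := Polynomial.coeff_mul_X (TT n) (k - 1)
    rw [Nat.sub_add_cancel (by omega)] at this
    rw [this]
  rw [e, TT_coeff n (k - 1) (by omega) (by omega)]
  ring

theorem coeff_order {n : ℕ} (hn : 0 < n) (hJ : Fintype.card J + 2 = n * (n + 1))
    (hG : Fintype.card G = n)
    (hspan : affineSpan ℝ (Set.range fun k : Kx J G => toReal (vert n k)) = ⊤)
    (g : G) (hg : g ≠ 1) :
    PowerSeries.coeff (orderOf g) ((PG J G n hspan).Hstar g) = n := by
  have hk1 : orderOf g ≠ 1 := fun h => hg (orderOf_eq_one_iff.1 h)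
  have hk0 : 0 < orderOf g := orderOf_pos g
  obtain ⟨Q, hQ, h0, h1⟩ := exists_Q n (orderOf g) hn (orderOf_pos g) (hG ▸ orderOf_dvd_card)
  rw [Hstar_eq hn hJ hG hspan g Q hQ, Polynomial.coeff_coe, mul_add, mul_one, Polynomial.coeff_add,
    h1 (by omega)]
  have e : (Q * (Polynomial.C ((n : ℤ) - 1) * Polynomial.X ^ orderOf g)).coeff (orderOf g) =
      ((n : ℤ) - 1) * Q.coeff 0 := by
    have e1 : Q * (Polynomial.C ((n : ℤ) - 1) * Polynomial.X ^ orderOf g) =
        Polynomial.C ((n : ℤ) - 1) * (Q * Polynomial.X ^ orderOf g) := by ring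
    rw [e1, Polynomial.coeff_C_mul]
    have := Polynomial.coeff_mul_X_pow Q (orderOf g) 0
    rw [zero_add] at this
    rw [this]
  rw [e, h0]
  ring

theorem not_isEffective [Nontrivial G] {n : ℕ} (hn : 0 < n)
    (hJ : Fintype.card J + 2 = n * (n + 1)) (hG : Fintype.card G = n)
    (hspan : affineSpan ℝ (Set.range fun k : Kx J G => toReal (vert n k)) = ⊤) :
    ¬ (PG J G n hspan).IsEffective := by
  intro h
  obtain ⟨g, hg⟩ := exists_ne (1 : G)
  obtain ⟨W, hW⟩ := h (orderOf g)
  have hk1 : orderOf g ≠ 1 := fun h => hg (orderOf_eq_one_iff.1 h)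
  have hk0 : 0 < orderOf g := orderOf_pos g
  have hkn : orderOf g ≤ n := hG ▸ orderOf_le_card_univ
  have h1 := hW 1
  have h2 := hW g
  rw [coeff_one hn hJ hG hspan (orderOf g) (by omega) hkn, FDRep.char_one] at h1
  rw [coeff_order hn hJ hG hspan g hg] at h2
  have h3 : Module.finrank ℂ W = 0 := by exact_mod_cast h1
  have h4 : Subsingleton W := Module.finrank_zero_iff.1 h3
  have h5 : W.character g = 0 := by
    unfold FDRep.character
    have : W.ρ g = 0 := by
      apply LinearMap.ext
      intro x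
      exact Subsingleton.elim _ _
    rw [this, map_zero]
  rw [h5] at h2
  have : (n : ℤ) = 0 := by exact_mod_cast h2.symm
  omega

end

/-- The main theorem. -/
theorem main (G : Type) [Group G] [Finite G] [Nontrivial G] :
    ∃ (ι : Type) (_ : Fintype ι) (_ : DecidableEq ι) (P : InvPolytope G ι),
      Fintype.card ι = Nat.card G ^ 2 + 2 * Nat.card G ∧ Function.Injective P.act ∧
        P.IsPolynomial ∧ ¬ P.IsEffective := by
  classical
  have := Fintype.ofFinite G
  rw [Nat.card_eq_fintype_card]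
  set n := Fintype.card G with hn
  have h2 : 1 < n := Fintype.one_lt_card
  have hn0 : 0 < n := by omega
  have hge : 2 ≤ n * (n + 1) := by nlinarith
  have hJ : Fintype.card (Fin (n * (n + 1) - 2)) + 2 = n * (n + 1) := by
    rw [Fintype.card_fin]; omega
  have hspan := span (Fin (n * (n + 1) - 2)) G n hn0
  refine ⟨Ix (Fin (n * (n + 1) - 2)) G, inferInstance, inferInstance,
    PG (Fin (n * (n + 1) - 2)) G n hspan, ?_, act_injective n hspan,
    isPolynomial hn0 hJ rfl hspan, not_isEffective hn0 hJ rfl hspan⟩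
  rw [Fintype.card_sum, Fintype.card_sum, Fintype.card_fin, Fintype.card_fin, ← hn]
  have : n * (n + 1) = n ^ 2 + n := by ring
  omega

end Pool.Agent.N355.EH
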