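import Pool.Agent.N355.EH.Bij

set_option autoImplicit false
set_option linter.unusedSectionVars false
open scoped Pointwise

namespace Pool.Agent.N355.EH

open PowerSeries Pool.Agent.H160R3

/-! ### the polytope -/

section

variable {J G : Type} [Fintype J] [DecidableEq J] [Fintype G] [DecidableEq G] [Group G]

/-- the vertex set -/
def VS (J G : Type) [Fintype J] [DecidableEq J] [Fintype G] [DecidableEq G] (n : ℕ) :
    Finset (Ix J G → ℤ) :=
  Finset.univ.image (vert n)

theorem VS_image (n : ℕ) :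
    toReal '' (VS J G n : Set (Ix J G → ℤ)) = Set.range fun k : Kx J G => toReal (vert n k) := by
  rw [VS, Finset.coe_image, Finset.coe_univ, Set.image_univ, ← Set.range_comp]
  rfl

/-- the action on the vertices -/
def vperm (J : Type) {G : Type} [Group G] (g : G) : Equiv.Perm (Kx J G) :=
  Equiv.sumCongr (Equiv.refl _) (Equiv.prodCongr (Equiv.mulRight g⁻¹) (Equiv.refl _))

theorem vert_perm (n : ℕ) (g : G) (k : Kx J G) (i : Ix J G) :
    vert n k ((perm J G g).symm i) = vert n (vperm J g k) i := by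
  rcases k with (k | k) | ⟨a, b⟩
  · fin_cases k
    · rcases i with (i | i) | i <;> rfl
    · rcases i with (i | i) | i <;> rfl
  · rcases i with (i | i) | i <;> rfl
  · rcases i with (i | i) | i
    · rfl
    · show (Pi.single a (1 : ℤ) : G → ℤ) ((Equiv.mulRight g⁻¹).symm i) =
        (Pi.single (a * g⁻¹) (1 : ℤ) : G → ℤ) i
      rw [Pi.single_apply, Pi.single_apply]
      have : (Equiv.mulRight g⁻¹).symm i = i * g := by simp
      rw [this]
      by_cases h : i = a * g⁻¹
      · rw [if_pos h, if_pos (by rw [h]; group)]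
      · rw [if_neg h, if_neg (fun h' => h (by rw [← h']; group))]
    · rfl

theorem linMat_apply (g : G) (i j : Ix J G) :
    linMat (actP J G g) i j = if (perm J G g).symm i = j then 1 else 0 := by
  show LinearMap.toMatrix' ((lin J G g : (Ix J G → ℤ) ≃ₗ[ℤ] (Ix J G → ℤ)) :
      (Ix J G → ℤ) →ₗ[ℤ] (Ix J G → ℤ)) i j = _
  rw [LinearMap.toMatrix'_apply]
  show (Pi.single j 1 : Ix J G → ℤ) ((perm J G g).symm i) = _
  rw [Pi.single_apply]

theorem linMat_mulVec (g : G) (x : Ix J G → ℝ) :
    ((linMat (actP J G g)).map (Int.cast : ℤ → ℝ)).mulVec x = fun i => x ((perm J G g).symm i) := by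
  funext i
  simp only [Matrix.mulVec, dotProduct, Matrix.map_apply, linMat_apply]
  simp

theorem realMap_actP (g : G) (x : Ix J G → ℝ) :
    realMap (actP J G g) x = fun i => x ((perm J G g).symm i) := by
  have h0 : toReal (actP J G g 0) = 0 := by
    funext i
    show (((0 : Ix J G → ℤ) ((perm J G g).symm i) : ℤ) : ℝ) = 0
    simp
  rw [realMap, linMat_mulVec, h0, add_zero]

theorem hull_inv (n : ℕ) (g : G) :
    realMap (actP J G g) '' convexHull ℝ (Set.range fun k : Kx J G => toReal (vert n k)) =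
      convexHull ℝ (Set.range fun k : Kx J G => toReal (vert n k)) := by
  have e : realMap (actP J G g) = LinearMap.funLeft ℝ ℝ ((perm J G g).symm : Ix J G → Ix J G) := by
    funext x
    rw [realMap_actP]
    rfl
  rw [e, LinearMap.image_convexHull, ← Set.range_comp]
  congr 1
  have e2 : (LinearMap.funLeft ℝ ℝ ((perm J G g).symm : Ix J G → Ix J G)) ∘
      (fun k : Kx J G => toReal (vert n k)) =
      (fun k : Kx J G => toReal (vert n k)) ∘ (vperm J g) := by
    funext k i
    show ((vert n k ((perm J G g).symm i) : ℤ) : ℝ) = ((vert n (vperm J g k) i : ℤ) : ℝ)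
    rw [vert_perm]
  rw [e2, (vperm J g).surjective.range_comp]

/-- the polytope `P(G)` -/
noncomputable def PG (J G : Type) [Fintype J] [DecidableEq J] [Fintype G] [DecidableEq G] [Group G]
    (n : ℕ) (hspan : affineSpan ℝ (Set.range fun k : Kx J G => toReal (vert n k)) = ⊤) :
    InvPolytope G (Ix J G) where
  V := VS J G n
  full := by rw [VS_image]; exact hspan
  act := actP J G
  inv := by
    intro g
    rw [VS_image]
    exact hull_inv n g

theorem chi_eq {n : ℕ} (hn : 0 < n)
    (hspan : affineSpan ℝ (Set.range fun k : Kx J G => toReal (vert n k)) = ⊤)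
    (hH : HULL_stm) (m : ℕ) (g : G) :
    ((PG J G n hspan).chi m g : ℤ) = PowerSeries.coeff m (ser (hT (J := J) (n := n) (g := g))) := by
  rw [coeff_ser, InvPolytope.chi, ← Nat.card_coe_set_eq]
  congr 1
  apply Nat.card_congr
  have key : ∀ (x : Ix J G → ℤ), (toReal x ∈ (m : ℝ) • (PG J G n hspan).carrier ∧
      ((PG J G n hspan).act g).linear x + m • ((PG J G n hspan).act g 0) = x) ↔
      (Ineq n x m ∧ Fixed g x) := by
    intro x
    have h1 : (PG J G n hspan).carrier =
        convexHull ℝ (Set.range fun k : Kx J G => toReal (vert n k)) := by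
      show convexHull ℝ (toReal '' (VS J G n : Set (Ix J G → ℤ))) = _
      rw [VS_image]
    have h2 : ((PG J G n hspan).act g 0) = 0 := by
      funext i
      rfl
    rw [h1, hH J G n hn x m, h2, smul_zero, add_zero, ← lin_eq_iff]
    rfl
  exact
    { toFun := fun x => ⟨⟨(x.1, m), (key x.1).1 x.2⟩, rfl⟩
      invFun := fun t => ⟨t.1.1.1, (key _).2 (by
        have h1 := t.1.2
        have h2 : t.1.1.2 = m := t.2
        rw [h2] at h1; exact h1)⟩
      left_inv := fun x => rfl
      right_inv := by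
        rintro ⟨⟨⟨x, m'⟩, h⟩, rfl⟩
        rfl }

/-! ### algebra -/

/-- the polynomial `∑_{i<n} X^{(n+1) i}` -/
noncomputable def TT (n : ℕ) : Polynomial ℤ := ∑ i ∈ Finset.range n, Polynomial.X ^ ((n + 1) * i)

theorem dvd_TT (n k : ℕ) (h : k ∣ n) :
    (1 - Polynomial.X ^ k : Polynomial ℤ) ∣ (1 - Polynomial.X) * TT n := by
  obtain ⟨r, rfl⟩ := h
  set n := k * r with hn
  have h1 : (1 - Polynomial.X ^ k : Polynomial ℤ) ∣ 1 - Polynomial.X ^ n := by
    have := sub_dvd_pow_sub_pow (1 : Polynomial ℤ) (Polynomial.X ^ k) r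
    rwa [one_pow, ← pow_mul, ← hn] at this
  have h2 : (1 - Polynomial.X ^ k : Polynomial ℤ) ∣
      TT n - ∑ i ∈ Finset.range n, Polynomial.X ^ i := by
    rw [TT, ← Finset.sum_sub_distrib]
    apply Finset.dvd_sum
    intro i _
    have h3 : (1 - Polynomial.X ^ k : Polynomial ℤ) ∣ Polynomial.X ^ (n + 1) - Polynomial.X := by
      have : (Polynomial.X ^ (n + 1) - Polynomial.X : Polynomial ℤ) =
          (1 - Polynomial.X ^ n) * (- Polynomial.X) := by ring
      rw [this]
      exact Dvd.dvd.mul_right h1 _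
    rw [pow_mul]
    exact h3.trans (sub_dvd_pow_sub_pow _ _ i)
  have h4 : (1 - Polynomial.X) * TT n = (1 - Polynomial.X) *
      (TT n - ∑ i ∈ Finset.range n, Polynomial.X ^ i) + (1 - Polynomial.X ^ n) := by
    have := mul_neg_geom_sum (Polynomial.X : Polynomial ℤ) n
    rw [← this]
    ring
  rw [h4]
  exact dvd_add (Dvd.dvd.mul_left h2 _) h1

theorem TT_coeff (n m : ℕ) (h0 : 0 < m) (h1 : m ≤ n) : (TT n).coeff m = 0 := by
  rw [TT, Polynomial.finsetSum_coeff]
  apply Finset.sum_eq_zero
  intro i _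
  rw [Polynomial.coeff_X_pow, if_neg]
  intro h
  rcases i with _ | i
  · omega
  · have : (n + 1) * (i + 1) ≥ (n + 1) := Nat.le_mul_of_pos_right _ (Nat.succ_pos _)
    omega

theorem TT_coeff_zero (n : ℕ) (hn : 0 < n) : (TT n).coeff 0 = 1 := by
  rw [TT, Polynomial.finsetSum_coeff, Finset.sum_eq_single 0]
  · simp
  · intro i _ hi
    rw [Polynomial.coeff_X_pow, if_neg]
    intro h
    have : 0 < (n + 1) * i := Nat.mul_pos (Nat.succ_pos _) (Nat.pos_of_ne_zero hi)
    omega
  · intro h
    exact absurd (Finset.mem_range.2 hn) h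

/-- the quotient polynomial -/
theorem exists_Q (n k : ℕ) (hn : 0 < n) (hk : 0 < k) (h : k ∣ n) :
    ∃ Q : Polynomial ℤ, Q * (1 - Polynomial.X ^ k) = (1 - Polynomial.X) * TT n ∧
      Q.coeff 0 = 1 ∧ (2 ≤ k → Q.coeff k = 1) := by
  obtain ⟨Q, hQ⟩ := dvd_TT n k h
  have hQ' : Q * (1 - Polynomial.X ^ k) = (1 - Polynomial.X) * TT n := by rw [hQ]; ring
  have hkn : k ≤ n := Nat.le_of_dvd hn h
  have h0 : Q.coeff 0 = 1 := by
    have := congrArg (fun p => Polynomial.coeff p 0) hQ'
    simp only [Polynomial.mul_coeff_zero, Polynomial.coeff_sub, Polynomial.coeff_X_pow,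
      Polynomial.coeff_one_zero, Polynomial.coeff_X_zero, TT_coeff_zero n hn] at this
    rw [if_neg (by omega)] at this
    linarith
  refine ⟨Q, hQ', h0, ?_⟩
  intro hk2
  have := congrArg (fun p => Polynomial.coeff p k) hQ'
  simp only [mul_sub, sub_mul, mul_one, one_mul, Polynomial.coeff_sub] at this
  have e1 : (Q * Polynomial.X ^ k).coeff k = Q.coeff 0 := by
    have := Polynomial.coeff_mul_X_pow Q k 0
    rwa [zero_add] at this
  have e2 : (Polynomial.X * TT n).coeff k = (TT n).coeff (k - 1) := by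
    have := Polynomial.coeff_X_mul (TT n) (k - 1)
    rwa [Nat.sub_add_cancel (by omega)] at this
  rw [e1, e2, TT_coeff n k (by omega) hkn, TT_coeff n (k - 1) (by omega) (by omega), h0] at this
  linarith

end

end Pool.Agent.N355.EH
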