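import Pool.Agent.N355.EH.Defs

set_option autoImplicit false
open scoped Pointwise

/-!
Statements of the leaves of project EH (each is a `Prop`, to be proved in its own file).
-/

namespace Pool.Agent.N355.EH

open PowerSeries Pool.Agent.H160R3

/-- HULL: the lattice points of `m P` -/
def HULL_stm : Prop :=
  ∀ (J G : Type) [Fintype J] [DecidableEq J] [Fintype G] [DecidableEq G] (n : ℕ), 0 < n →
    ∀ (x : Ix J G → ℤ) (m : ℕ),
      (toReal x ∈ (m : ℝ) • convexHull ℝ (Set.range fun k : Kx J G => toReal (vert n k)) ↔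
        Ineq n x m)

/-- SPAN: the polytope has full dimension -/
def SPAN_stm : Prop :=
  ∀ (J G : Type) [Fintype J] [DecidableEq J] [Fintype G] [DecidableEq G] (n : ℕ), 0 < n →
    affineSpan ℝ (Set.range fun k : Kx J G => toReal (vert n k)) = ⊤

/-- DET: the determinant `det (I - t ρ(g))` -/
def DET_stm : Prop :=
  ∀ (J G : Type) [Fintype J] [DecidableEq J] [Fintype G] [DecidableEq G] [Group G] (g : G),
    Matrix.det (1 - (Polynomial.X : Polynomial ℤ) • (linMat (actP J G g)).map Polynomial.C) =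
      (1 - Polynomial.X) ^ (Fintype.card J + 2) *
        (1 - Polynomial.X ^ orderOf g) ^ (Fintype.card G / orderOf g)

/-- the height (sum of the coordinates) of a vector of natural numbers -/
def hSum {J : Type} [Fintype J] (k : J → ℕ) : ℕ := ∑ j, k j

/-- GFS: the counting series of `ℕ^J` by `c` times the sum is `1 / (1 - X^c)^|J|` -/
def GFS_stm : Prop :=
  ∀ (J : Type) [Fintype J] (c : ℕ), 0 < c →
    FF (fun k : J → ℕ => c * hSum k) ∧
      ser (fun k : J → ℕ => c * hSum k) * (1 - X ^ c) ^ Fintype.card J = 1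

/-- pairs `(y, w)`, `y ∈ ℕ^G` invariant under right translation by `g`, `0 ≤ w ≤ ∑ y` -/
def TF (G : Type) [Group G] [Fintype G] (g : G) : Type :=
  {p : (G → ℕ) × ℕ // (∀ a, p.1 (a * g) = p.1 a) ∧ p.2 ≤ hSum p.1}

/-- the height `∑ y` -/
def hF {G : Type} [Group G] [Fintype G] {g : G} (p : TF G g) : ℕ := hSum p.1.1

/-- GFF: `∑_{(y,w)} X^{∑ y} = (1 + (|G| - 1) X^k) / (1 - X^k)^{|G|/k + 1}`, `k` the order of `g` -/
def GFF_stm : Prop :=
  ∀ (G : Type) [Fintype G] [Group G] (g : G),
    FF (hF (g := g)) ∧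
      ser (hF (g := g)) * (1 - X ^ orderOf g) ^ (Fintype.card G / orderOf g + 1) =
        1 + (C ((Fintype.card G : ℤ) - 1)) * X ^ orderOf g

end Pool.Agent.N355.EH
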